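import Pool.Agent.W544.PG.Defs

set_option autoImplicit false

namespace Pool.Agent.W116.PG

open Matrix Finset Module Pool.Agent.W544.PG

noncomputable section

variable {p q : ℕ} (G : Gr p q)

theorem mem_kk (D : Matrix (Fin q) (Fin q) ℂ) :
    D ∈ G.kk ↔ ((0, D) : Matrix (Fin p) (Fin p) ℂ × Matrix (Fin q) (Fin q) ℂ) ∈ G.h0 := Iff.rfl

/-- the algebra generated by `kk` -/
def AA : Submodule ℂ (Matrix (Fin q) (Fin q) ℂ) :=
  Subalgebra.toSubmodule (Algebra.adjoin ℂ (G.kk : Set (Matrix (Fin q) (Fin q) ℂ)))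

theorem mem_AA (D : Matrix (Fin q) (Fin q) ℂ) :
    D ∈ AA G ↔ D ∈ Algebra.adjoin ℂ (G.kk : Set (Matrix (Fin q) (Fin q) ℂ)) := Iff.rfl

theorem star_mem : ∀ a ∈ AA G, aᴴ ∈ AA G := by
  intro a ha
  rw [mem_AA] at ha ⊢
  induction ha using Algebra.adjoin_induction with
  | mem x hx =>
    apply Algebra.subset_adjoin
    have h := G.star0 _ ((mem_kk G x).1 hx)
    simp only [conjTranspose_zero] at h
    exact h
  | algebraMap r =>
    rw [Algebra.algebraMap_eq_smul_one, conjTranspose_smul, conjTranspose_one,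
      ← Algebra.algebraMap_eq_smul_one]
    exact Subalgebra.algebraMap_mem _ _
  | add x y hx hy h1 h2 =>
    rw [conjTranspose_add]
    exact Subalgebra.add_mem _ h1 h2
  | mul x y hx hy h1 h2 =>
    rw [conjTranspose_mul]
    exact Subalgebra.mul_mem _ h2 h1

theorem tr_mem : ∀ a ∈ AA G, aᵀ ∈ AA G := by
  intro a ha
  rw [mem_AA] at ha ⊢
  induction ha using Algebra.adjoin_induction with
  | mem x hx =>
    have h := G.skew0 _ ((mem_kk G x).1 hx)
    simp only at h
    rw [h]
    exact Subalgebra.neg_mem _ (Algebra.subset_adjoin hx)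
  | algebraMap r =>
    rw [Algebra.algebraMap_eq_smul_one, transpose_smul, transpose_one,
      ← Algebra.algebraMap_eq_smul_one]
    exact Subalgebra.algebraMap_mem _ _
  | add x y hx hy h1 h2 =>
    rw [transpose_add]
    exact Subalgebra.add_mem _ h1 h2
  | mul x y hx hy h1 h2 =>
    rw [transpose_mul]
    exact Subalgebra.mul_mem _ h2 h1

theorem mod_mem : ∀ a ∈ AA G, ∀ F ∈ G.h1, F * a ∈ G.h1 := by
  intro a ha
  rw [mem_AA] at ha
  induction ha using Algebra.adjoin_induction with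
  | mem x hx =>
    intro F hF
    have h := G.b01 _ ((mem_kk G x).1 hx) F hF
    simp only [Matrix.zero_mul, zero_sub] at h
    exact (Submodule.neg_mem_iff _).1 h
  | algebraMap r =>
    intro F hF
    rw [Algebra.algebraMap_eq_smul_one, Matrix.mul_smul, Matrix.mul_one]
    exact Submodule.smul_mem _ _ hF
  | add x y hx hy h1 h2 =>
    intro F hF
    rw [Matrix.mul_add]
    exact Submodule.add_mem _ (h1 F hF) (h2 F hF)
  | mul x y hx hy h1 h2 =>
    intro F hF
    rw [← Matrix.mul_assoc]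
    exact h2 _ (h1 F hF)

theorem nor_mem (X : Matrix (Fin p) (Fin p) ℂ × Matrix (Fin q) (Fin q) ℂ) (hX : X ∈ G.h0) :
    ∀ a ∈ AA G, X.2 * a - a * X.2 ∈ AA G := by
  intro a ha
  rw [mem_AA] at ha ⊢
  induction ha using Algebra.adjoin_induction with
  | mem x hx =>
    apply Algebra.subset_adjoin
    have h := G.b00 _ hX _ ((mem_kk G x).1 hx)
    simp only [Matrix.mul_zero, Matrix.zero_mul, sub_zero] at h
    exact h
  | algebraMap r =>
    rw [Algebra.algebraMap_eq_smul_one, Matrix.mul_smul, Matrix.mul_one, Matrix.smul_mul,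
      Matrix.one_mul, sub_self]
    exact Subalgebra.zero_mem _
  | add x y hx hy h1 h2 =>
    have e : X.2 * (x + y) - (x + y) * X.2 = (X.2 * x - x * X.2) + (X.2 * y - y * X.2) := by
      noncomm_ring
    rw [e]
    exact Subalgebra.add_mem _ h1 h2
  | mul x y hx hy h1 h2 =>
    have e : X.2 * (x * y) - (x * y) * X.2 = (X.2 * x - x * X.2) * y + x * (X.2 * y - y * X.2) := by
      noncomm_ring
    rw [e]
    exact Subalgebra.add_mem _ (Subalgebra.mul_mem _ h1 hy) (Subalgebra.mul_mem _ hx h2)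

theorem adj : S_adj := by
  intro p q G
  refine ⟨AA G, ⟨⟨Subalgebra.one_mem _, fun a ha b hb => Subalgebra.mul_mem _ ha hb,
    star_mem G⟩, tr_mem G, fun F hF a ha => mod_mem G a ha F hF, fun X hX a ha => nor_mem G X hX a ha,
    fun D hD => Algebra.subset_adjoin hD⟩⟩

end

end Pool.Agent.W116.PG
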